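import Pool.Agent.Helper99.PG.Goals1

/-!
PROJECT C2 (MP_2b0227_gt), packet PG-P1.
-/

set_option autoImplicit false

namespace Pool.Agent.Helper36.PG

open Pool.Agent.Helper52.C2 Pool.Agent.Helper68 Pool.Agent.Helper99.PG
open scoped Classical

theorem c_lf {E : Type} (G : BG E) (e : E) : G.c (G.lf e) = true := by
  unfold BG.c
  exact decide_eq_true (G.lf_left e)

theorem c_rt {E : Type} (G : BG E) (e : E) : G.c (G.rt e) = false := by
  unfold BG.c
  exact decide_eq_false (G.rt_left e)

theorem partI : Pool.Agent.Helper99.PG.GoalPartI := by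
  intro hNat hAff hRing hMono hSlot E _ _ hE G
  have h1 := (hAff G).1
  refine ⟨h1, ?_, ?_⟩
  · apply hSlot E G.Phi h1
    intro n hn k i
    have hs : (fun e => n e + if e = k then 1 else 0) = n + Pi.single k 1 := by
      funext e
      rw [Pi.add_apply, Pi.single_apply]
    have hn' : ∀ e : E, 0 ≤ (n + Pi.single k 1 : E → ℤ) e := by
      intro e
      rw [← hs]
      have := hn e
      by_cases h : e = k
      · simp only [if_pos h]
        omega
      · simp only [if_neg h]
        omega
    have e1 := hRing G n hn i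
    have e2 := hRing G n hn (i - 1)
    have e3 := hRing G (n + Pi.single k 1) hn' i
    rw [← hs] at e3
    rw [e1, e2, e3]
    have hm := hMono G.g G.c 1 k (c_lf G k) (c_rt G k) n i
    rw [← hs] at hm
    refine ⟨?_, hm.1, hm.2⟩
    unfold SK.cnt
    exact Nat.cast_nonneg _
  · obtain ⟨e0⟩ := hE
    refine hNat G.C E G.g G.c ?_ ?_ G.Phi h1 1 (hRing G)
    · intro b
      cases b with
      | true => exact ⟨G.lf e0, c_lf G e0⟩
      | false => exact ⟨G.rt e0, c_rt G e0⟩
    · intro e
      change G.c (G.lf e) ≠ G.c (G.rt e)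
      rw [c_lf, c_rt]
      decide

end Pool.Agent.Helper36.PG
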