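import Pool.Agent.Helper99.PG.Goals

/-!
PROJECT C2 (MP_2b0227_gt), packet PG-SLACK.
-/

set_option autoImplicit false

namespace Pool.Agent.Helper36.PG

open Pool.Agent.Helper36.SC Pool.Agent.Helper37.Arb Pool.Agent.Helper52.C2
open Pool.Agent.Helper99.PG
open scoped Classical

theorem sum_or {C : Type} (U : Finset C) (a b : C) (hab : a ≠ b) (s : ℤ) :
    ∑ c ∈ U, (if a = c ∨ b = c then s else 0) =
      (if a ∈ U then s else 0) + (if b ∈ U then s else 0) := by
  have h : ∀ c, (if a = c ∨ b = c then s else 0) = (if a = c then s else 0) +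
      (if b = c then s else 0) := by
    intro c
    by_cases h1 : a = c
    · have h2 : ¬ b = c := fun h2 => hab (h1.trans h2.symm)
      rw [if_pos (Or.inl h1), if_pos h1, if_neg h2, add_zero]
    · by_cases h2 : b = c
      · rw [if_pos (Or.inr h2), if_neg h1, if_pos h2, zero_add]
      · rw [if_neg (not_or.mpr ⟨h1, h2⟩), if_neg h1, if_neg h2, add_zero]
  rw [Finset.sum_congr rfl (fun c _ => h c), Finset.sum_add_distrib, Finset.sum_ite_eq,
    Finset.sum_ite_eq]

set_option linter.unusedSectionVars false

variable {V : Type} [Fintype V] [DecidableEq V] (G : BG (Option V)) (κ : Bool) (W : Finset V)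
  (A : V → Bool)

theorem lf_ne_rt (e : Option V) : G.lf e ≠ G.rt e := by
  intro h
  apply G.rt_left e
  rw [← h]
  exact G.lf_left e

theorem sz_mem {v : V} (hv : v ∈ W) : sz κ W (some v) = 1 := by
  unfold sz
  exact if_pos hv

theorem sz_not {v : V} (hv : v ∉ W) : sz κ W (some v) = 0 := by
  unfold sz
  exact if_neg hv

theorem chosen_sum (U : Finset G.C) : ∑ c ∈ U, chosen G W A {c} = chosen G W A U := by
  unfold chosen
  simp only [Finset.natCast_card_filter]
  rw [Finset.sum_comm]
  apply Finset.sum_congr rfl
  intro v _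
  simp only [Finset.mem_singleton]
  rw [Finset.sum_ite_eq]

theorem main_sum (U : Finset G.C) : ∑ c ∈ U, (jof G κ W A c + 1) =
    ∑ e : Option V, ((if G.lf e ∈ U then sz κ W e else 0) +
      (if G.rt e ∈ U then sz κ W e else 0)) - chosen G W A U +
      (if κ = false ∧ G.lf none ∈ U then 1 else 0) := by
  have h1 : ∀ c, jof G κ W A c + 1 = ∑ e : Option V, (if G.lf e = c ∨ G.rt e = c then sz κ W e
      else 0) - chosen G W A {c} + (if κ = false ∧ G.lf none = c then 1 else 0) := by
    intro c
    unfold jof
    rw [Finset.sum_filter]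
    ring
  rw [Finset.sum_congr rfl (fun c _ => h1 c), Finset.sum_add_distrib, Finset.sum_sub_distrib,
    chosen_sum, Finset.sum_comm]
  congr 1
  · congr 1
    apply Finset.sum_congr rfl
    intro e _
    exact sum_or U _ _ (lf_ne_rt G e) _
  · by_cases hκ : κ = false
    · simp only [hκ, true_and]
      rw [Finset.sum_ite_eq]
    · simp [hκ]

theorem sum_inner (U : Finset G.C) :
    ∑ e : Option V, (if G.lf e ∈ U ∧ G.rt e ∈ U then sz κ W e else 0) +
      (if κ = false ∧ G.lf none ∈ U then 1 else 0) = inner G W U + exits G κ U := by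
  rw [Fintype.sum_option]
  have h1 : ∑ v : V, (if G.lf (some v) ∈ U ∧ G.rt (some v) ∈ U then sz κ W (some v) else 0) =
      inner G W U := by
    unfold Pool.Agent.Helper99.PG.inner
    rw [Finset.natCast_card_filter]
    rw [← Finset.sum_subset (Finset.subset_univ W)]
    · apply Finset.sum_congr rfl
      intro v hv
      rw [sz_mem κ W hv]
    · intro v _ hv
      rw [sz_not κ W hv, ite_self]
  rw [h1]
  unfold exits
  have h2 : sz κ W none = if κ then 1 else 0 := rfl
  rw [h2]
  cases κ with
  | true =>
    simp only [if_true, true_implies, Bool.true_eq_false, false_and, if_false, add_zero]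
    ring
  | false =>
    simp only [Bool.false_eq_true, if_false, ite_self, false_implies, and_true, true_and,
      zero_add]

theorem slack_eq (U : Finset G.C) :
    ∑ e with (G.lf e ∈ U ∨ G.rt e ∈ U), sz κ W e - U.card -
    ∑ c ∈ U, jof G κ W A c = chosen G W A U - inner G W U - exits G κ U := by
  have h1 := main_sum G κ W A U
  rw [Finset.sum_add_distrib, Finset.sum_const, nsmul_eq_mul, mul_one] at h1
  have h2 := sum_inner G κ W U
  have h3 : ∑ e : Option V, ((if G.lf e ∈ U then sz κ W e else 0) +
      (if G.rt e ∈ U then sz κ W e else 0)) =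
      ∑ e with (G.lf e ∈ U ∨ G.rt e ∈ U), sz κ W e +
      ∑ e : Option V, (if G.lf e ∈ U ∧ G.rt e ∈ U then sz κ W e else 0) := by
    rw [Finset.sum_filter, ← Finset.sum_add_distrib]
    apply Finset.sum_congr rfl
    intro e _
    by_cases ha : G.lf e ∈ U <;> by_cases hb : G.rt e ∈ U <;> simp [ha, hb]
  rw [h3] at h1
  linarith

theorem slack : Pool.Agent.Helper99.PG.GoalSlack := by
  intro V _ _ G κ W A
  refine ⟨fun U => slack_eq G κ W A U, ?_⟩
  constructor
  · rintro ⟨_, h⟩ U hU hU'
    have h1 := h U hU hU'
    have h2 := slack_eq G κ W A U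
    linarith
  · intro h
    refine ⟨?_, ?_⟩
    · have h1 := slack_eq G κ W A Finset.univ
      have h2 : chosen G W A Finset.univ = W.card := by
        unfold chosen
        simp
      have h3 : inner G W Finset.univ = W.card := by
        unfold Pool.Agent.Helper99.PG.inner
        simp
      have h4 : exits G κ Finset.univ = 1 := by
        unfold exits
        simp
      have h5 : ∑ e with (G.lf e ∈ (Finset.univ : Finset G.C) ∨ G.rt e ∈ (Finset.univ :
          Finset G.C)), sz κ W e = ∑ e, sz κ W e := by
        rw [Finset.sum_filter]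
        simp
      rw [h2, h3, h4, h5, Finset.card_univ] at h1
      linarith
    · intro U hU hU'
      have h1 := h U hU hU'
      have h2 := slack_eq G κ W A U
      linarith

theorem deg : Pool.Agent.Helper99.PG.GoalDeg := by
  intro V _ _ G κ W A
  have h1 := main_sum G κ W A (Finset.univ.filter G.left)
  have h2 : G.deg (jof G κ W A) = ∑ c ∈ Finset.univ.filter G.left, (jof G κ W A c + 1) - 1 := rfl
  rw [h2, h1]
  have h3 : ∀ e, (if G.lf e ∈ Finset.univ.filter G.left then sz κ W e else 0) = sz κ W e := by
    intro e
    rw [if_pos]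
    rw [Finset.mem_filter]
    exact ⟨Finset.mem_univ _, G.lf_left e⟩
  have h4 : ∀ e, (if G.rt e ∈ Finset.univ.filter G.left then sz κ W e else 0) = 0 := by
    intro e
    rw [if_neg]
    rw [Finset.mem_filter]
    exact fun h => G.rt_left e h.2
  simp only [h3, h4, add_zero]
  have h5 : ∑ e : Option V, sz κ W e = (if κ then 1 else 0) + W.card := by
    rw [Fintype.sum_option]
    congr 1
    have : ∀ v : V, sz κ W (some v) = if v ∈ W then (1 : ℤ) else 0 := by
      intro v
      by_cases hv : v ∈ W
      · rw [sz_mem κ W hv, if_pos hv]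
      · rw [sz_not κ W hv, if_neg hv]
    rw [Finset.sum_congr rfl (fun v _ => this v), Finset.sum_ite_mem, Finset.univ_inter]
    simp
  have h6 : G.lf none ∈ Finset.univ.filter G.left := by
    rw [Finset.mem_filter]
    exact ⟨Finset.mem_univ _, G.lf_left none⟩
  have h7 : chosen G W A (Finset.univ.filter G.left) + cnt W A = W.card := by
    unfold chosen cnt
    rw [Finset.natCast_card_filter, Finset.natCast_card_filter, ← Finset.sum_add_distrib]
    rw [Finset.card_eq_sum_ones, Nat.cast_sum]
    apply Finset.sum_congr rfl
    intro v _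
    have hp : pick G A v ∈ Finset.univ.filter G.left ↔ A v = true := by
      rw [Finset.mem_filter]
      unfold pick
      cases hA : A v with
      | true => simp [G.lf_left]
      | false => simp [G.rt_left]
    by_cases hA : A v = true
    · rw [if_pos (hp.mpr hA), if_neg (by rw [hA]; decide)]
      norm_num
    · rw [if_neg (fun h => hA (hp.mp h)), if_pos (by simpa using hA)]
      norm_num
  rw [h5]
  cases κ with
  | true =>
    simp only [if_true, Bool.true_eq_false, false_and, if_false]
    linarith
  | false =>
    simp only [Bool.false_eq_true, if_false, true_and, if_pos h6]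
    linarith

end Pool.Agent.Helper36.PG
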