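import Pool.Agent.Helper52.PG.Goals

/-!
PROJECT C2 (MP_2b0227_gt), packet PH-STARGOOD.
-/

set_option autoImplicit false

namespace Pool.Agent.Helper36.PG

open Pool.Agent.Helper52.C2 Pool.Agent.Helper52.PG
open LaurentPolynomial
open scoped Classical

/-- The product of the closures. -/
noncomputable def PPr (ι : Type) [Fintype ι] (S S' : ι → Tg) : ℝ[T;T⁻¹] :=
  ∏ i, ((S i).mul (S' i)).F

/-- The sum. -/
noncomputable def SSm (ι : Type) [Fintype ι] (S S' : ι → Tg) : ℝ[T;T⁻¹] :=
  ∑ i, ∏ j, if j = i then (S j).F * (S' j).F else ((S j).mul (S' j)).F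

theorem PPr_sum (ι κ : Type) [Fintype ι] [Fintype κ] (S S' : ι → Tg) (Q Q' : κ → Tg) :
    PPr (ι ⊕ κ) (Sum.elim S Q) (Sum.elim S' Q') = PPr ι S S' * PPr κ Q Q' := by
  unfold PPr
  rw [Fintype.prod_sum_type]
  rfl

theorem SSm_sum (ι κ : Type) [Fintype ι] [Fintype κ] (S S' : ι → Tg) (Q Q' : κ → Tg) :
    SSm (ι ⊕ κ) (Sum.elim S Q) (Sum.elim S' Q') =
      SSm ι S S' * PPr κ Q Q' + PPr ι S S' * SSm κ Q Q' := by
  unfold SSm PPr
  rw [Fintype.sum_sum_type, Finset.sum_mul, Finset.mul_sum]
  congr 1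
  · apply Finset.sum_congr rfl
    intro i _
    rw [Fintype.prod_sum_type]
    congr 1
    · apply Finset.prod_congr rfl
      intro j _
      by_cases h : j = i
      · rw [if_pos h, if_pos (congrArg Sum.inl h)]
        rfl
      · rw [if_neg h, if_neg (fun e => h (Sum.inl_injective e))]
        rfl
    · apply Finset.prod_congr rfl
      intro j _
      rw [if_neg (by simp)]
      rfl
  · apply Finset.sum_congr rfl
    intro i _
    rw [Fintype.prod_sum_type]
    congr 1
    · apply Finset.prod_congr rfl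
      intro j _
      rw [if_neg (by simp)]
      rfl
    · apply Finset.prod_congr rfl
      intro j _
      by_cases h : j = i
      · rw [if_pos h, if_pos (congrArg Sum.inr h)]
        rfl
      · rw [if_neg h, if_neg (fun e => h (Sum.inr_injective e))]
        rfl

theorem inv_inv (f : ℝ[T;T⁻¹]) : invert (invert f) = f := by
  exact involutive_invert f

theorem star_fam {A B : ℝ[T;T⁻¹]} (h : Star A B) :
    ∃ (ι : Type) (_ : Fintype ι) (S S' : ι → Tg), (∀ i, (S i).HH1) ∧ (∀ i, (S' i).HH1) ∧
      invert B = PPr ι S S' ∧ invert A = SSm ι S S' := by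
  induction h with
  | @one A B hD =>
    obtain ⟨S, S', hS, hS', hA, hB⟩ := hD
    refine ⟨Unit, inferInstance, fun _ => S, fun _ => S', fun _ => hS, fun _ => hS', ?_, ?_⟩
    · rw [inv_inv, hA]
      unfold PPr
      rw [Fintype.prod_unique]
    · rw [inv_inv, hB]
      unfold SSm
      rw [Fintype.sum_unique, Fintype.prod_unique, if_pos rfl]
  | @add A B A' B' _ _ ih ih' =>
    obtain ⟨ι, _, S, S', hS, hS', h1, h2⟩ := ih
    obtain ⟨κ, _, Q, Q', hQ, hQ', h3, h4⟩ := ih'
    refine ⟨ι ⊕ κ, inferInstance, Sum.elim S Q, Sum.elim S' Q', ?_, ?_, ?_, ?_⟩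
    · intro i
      cases i with
      | inl i => exact hS i
      | inr i => exact hQ i
    · intro i
      cases i with
      | inl i => exact hS' i
      | inr i => exact hQ' i
    · rw [map_mul, h1, h3, PPr_sum]
    · rw [map_add, map_mul, map_mul, h1, h2, h3, h4, SSm_sum]

theorem starGood : Pool.Agent.Helper52.PG.GoalStarGood := by
  intro hyp A B h
  obtain ⟨ι, _, S, S', hS, hS', h1, h2⟩ := star_fam h
  let e := Fintype.equivFin ι
  have h3 := hyp (Fintype.card ι) (fun i => S (e.symm i)) (fun i => S' (e.symm i))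
    (fun i => hS _) (fun i => hS' _)
  have h4 : PPr ι S S' = ∏ i, ((S (e.symm i)).mul (S' (e.symm i))).F := by
    unfold PPr
    exact (Equiv.prod_comp e.symm (fun i => ((S i).mul (S' i)).F)).symm
  have h5 : SSm ι S S' = ∑ i, (S (e.symm i)).F * (S' (e.symm i)).F *
      ∏ j ∈ Finset.univ.erase i, ((S (e.symm j)).mul (S' (e.symm j))).F := by
    unfold SSm
    rw [← Equiv.sum_comp e.symm]
    apply Finset.sum_congr rfl
    intro i _
    rw [← Equiv.prod_comp e.symm, ← Finset.mul_prod_erase Finset.univ _ (Finset.mem_univ i)]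
    congr 1
    · rw [if_pos rfl]
    · apply Finset.prod_congr rfl
      intro j hj
      rw [if_neg]
      intro he
      exact Finset.ne_of_mem_erase hj (e.symm.injective he)
  rw [h1, h2, h4, h5]
  exact h3

end Pool.Agent.Helper36.PG
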